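import Mathlib

/-!
The two point Hausdorff-Young inequality, from the three lines theorem.
-/

open Complex Set

namespace Pool.Agent.helper76.BM

/-- the bilinear form on the line `Re z = 1/2` -/
theorem bil_half (w₁ w₂ y₁ y₂ : ℂ) (hw : ‖w₁‖ ^ 2 + ‖w₂‖ ^ 2 = 1) (hy : ‖y₁‖ ^ 2 + ‖y₂‖ ^ 2 = 1) :
    ‖w₁ * (y₁ + y₂) + w₂ * (y₁ - y₂)‖ ≤ Real.sqrt 2 := by
  have h1 : ‖w₁ * (y₁ + y₂) + w₂ * (y₁ - y₂)‖ ≤ ‖w₁‖ * ‖y₁ + y₂‖ + ‖w₂‖ * ‖y₁ - y₂‖ := by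
    refine (norm_add_le _ _).trans ?_
    rw [norm_mul, norm_mul]
  have h2 : ‖y₁ + y₂‖ ^ 2 + ‖y₁ - y₂‖ ^ 2 = 2 := by
    have := parallelogram_law_with_norm ℝ y₁ y₂
    nlinarith
  refine h1.trans (Real.le_sqrt_of_sq_le ?_)
  have := sq_nonneg (‖w₁‖ * ‖y₁ - y₂‖ - ‖w₂‖ * ‖y₁ + y₂‖)
  nlinarith

theorem cpow_diffContOnCl (c : ℝ) :
    DiffContOnCl ℂ (fun z : ℂ => (c : ℂ) ^ z) (HadamardThreeLines.verticalStrip (1 / 2) 1) := by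
  refine ⟨?_, ?_⟩
  · intro z hz
    have hz' : z ≠ 0 := by
      rintro rfl
      simp [HadamardThreeLines.verticalStrip] at hz
      norm_num at hz
    exact (DifferentiableAt.const_cpow differentiableAt_id (Or.inr hz')).differentiableWithinAt
  · intro z hz
    have hz' : z ≠ 0 := by
      rintro rfl
      have : closure (HadamardThreeLines.verticalStrip (1 / 2) 1) ⊆ {z : ℂ | 1 / 2 ≤ z.re} := by
        refine closure_minimal ?_ (isClosed_le continuous_const Complex.continuous_re)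
        intro x hx
        exact le_of_lt hx.1
      have := this hz
      simp at this
      norm_num at this
    exact (DifferentiableAt.const_cpow differentiableAt_id (Or.inr hz')).continuousAt.continuousWithinAt

/-- Two point Riesz-Thorin in bilinear form, for nonnegative weights with prescribed signs. -/
theorem bil_le {x : ℝ} (hx1 : 1 / 2 ≤ x) (hx2 : x ≤ 1) {a₁ a₂ b₁ b₂ : ℝ} (ha₁ : 0 ≤ a₁)
    (ha₂ : 0 ≤ a₂) (hb₁ : 0 ≤ b₁) (hb₂ : 0 ≤ b₂) (ha : a₁ + a₂ = 1) (hb : b₁ + b₂ = 1)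
    (s₁ s₂ r₁ r₂ : ℝ) (hs₁ : |s₁| = 1) (hs₂ : |s₂| = 1) (hr₁ : |r₁| = 1) (hr₂ : |r₂| = 1) :
    |r₁ * b₁ ^ x * (s₁ * a₁ ^ x + s₂ * a₂ ^ x) + r₂ * b₂ ^ x * (s₁ * a₁ ^ x - s₂ * a₂ ^ x)|
      ≤ 2 ^ (1 - x) := by
  set F : ℂ → ℂ := fun z => (r₁ : ℂ) * (b₁ : ℂ) ^ z * ((s₁ : ℂ) * (a₁ : ℂ) ^ z + (s₂ : ℂ) * (a₂ : ℂ) ^ z)
    + (r₂ : ℂ) * (b₂ : ℂ) ^ z * ((s₁ : ℂ) * (a₁ : ℂ) ^ z - (s₂ : ℂ) * (a₂ : ℂ) ^ z) with hF
  have n1 : ∀ r : ℝ, |r| = 1 → ‖(r : ℂ)‖ = 1 := fun r hr => by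
    rw [Complex.norm_real, Real.norm_eq_abs, hr]
  have hn : ∀ c : ℝ, 0 ≤ c → ∀ z : ℂ, z.re ≠ 0 → ‖(c : ℂ) ^ z‖ = c ^ z.re := fun c hc z hz =>
    Complex.norm_cpow_eq_rpow_re_of_nonneg hc hz
  have ha₁' : a₁ ≤ 1 := by linarith
  have ha₂' : a₂ ≤ 1 := by linarith
  have hb₁' : b₁ ≤ 1 := by linarith
  have hb₂' : b₂ ≤ 1 := by linarith
  have hd : DiffContOnCl ℂ F (HadamardThreeLines.verticalStrip (1 / 2) 1) := by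
    have A₁ := (cpow_diffContOnCl a₁).const_smul (s₁ : ℂ)
    have A₂ := (cpow_diffContOnCl a₂).const_smul (s₂ : ℂ)
    have B₁ := (cpow_diffContOnCl b₁).const_smul (r₁ : ℂ)
    have B₂ := (cpow_diffContOnCl b₂).const_smul (r₂ : ℂ)
    exact (B₁.smul (A₁.add A₂)).add (B₂.smul (A₁.sub A₂))
  have hbd : ∀ z : ℂ, 1 / 2 ≤ z.re → z.re ≤ 1 → ‖F z‖ ≤ 4 := by
    intro z hz1 hz2
    have hz0 : z.re ≠ 0 := by intro h; rw [h] at hz1; norm_num at hz1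
    have q : ∀ c : ℝ, 0 ≤ c → c ≤ 1 → ‖(c : ℂ) ^ z‖ ≤ 1 := fun c hc hc' => by
      rw [hn c hc z hz0]; exact Real.rpow_le_one hc hc' (by linarith)
    have q0 : ∀ c : ℝ, 0 ≤ ‖(c : ℂ) ^ z‖ := fun c => norm_nonneg _
    have e1 : ‖F z‖ ≤ ‖(b₁ : ℂ) ^ z‖ * (‖(a₁ : ℂ) ^ z‖ + ‖(a₂ : ℂ) ^ z‖)
        + ‖(b₂ : ℂ) ^ z‖ * (‖(a₁ : ℂ) ^ z‖ + ‖(a₂ : ℂ) ^ z‖) := by
      simp only [hF]
      refine (norm_add_le _ _).trans (add_le_add ?_ ?_)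
      · rw [norm_mul, norm_mul, n1 r₁ hr₁, one_mul]
        refine mul_le_mul_of_nonneg_left ((norm_add_le _ _).trans ?_) (q0 _)
        rw [norm_mul, norm_mul, n1 s₁ hs₁, n1 s₂ hs₂, one_mul, one_mul]
      · rw [norm_mul, norm_mul, n1 r₂ hr₂, one_mul]
        refine mul_le_mul_of_nonneg_left ((norm_sub_le _ _).trans ?_) (q0 _)
        rw [norm_mul, norm_mul, n1 s₁ hs₁, n1 s₂ hs₂, one_mul, one_mul]
    have := q a₁ ha₁ ha₁'; have := q a₂ ha₂ ha₂'; have := q b₁ hb₁ hb₁'; have := q b₂ hb₂ hb₂'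
    have := q0 a₁; have := q0 a₂; have := q0 b₁; have := q0 b₂
    nlinarith
  have hB : BddAbove ((norm ∘ F) '' HadamardThreeLines.verticalClosedStrip (1 / 2) 1) := by
    refine ⟨4, ?_⟩
    rintro _ ⟨z, hz, rfl⟩
    exact hbd z hz.1 hz.2
  have hleft : ∀ z ∈ re ⁻¹' {(1 / 2 : ℝ)}, ‖F z‖ ≤ Real.sqrt 2 := by
    intro z hz
    have hz' : z.re = 1 / 2 := hz
    have hz0 : z.re ≠ 0 := by rw [hz']; norm_num
    have sq : ∀ (s c : ℝ), |s| = 1 → 0 ≤ c → ‖(s : ℂ) * (c : ℂ) ^ z‖ ^ 2 = c := fun s c hs hc => by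
      rw [norm_mul, n1 s hs, one_mul, hn c hc z hz0, hz', ← Real.sqrt_eq_rpow, Real.sq_sqrt hc]
    have := bil_half ((r₁ : ℂ) * (b₁ : ℂ) ^ z) ((r₂ : ℂ) * (b₂ : ℂ) ^ z)
      ((s₁ : ℂ) * (a₁ : ℂ) ^ z) ((s₂ : ℂ) * (a₂ : ℂ) ^ z)
      (by rw [sq r₁ b₁ hr₁ hb₁, sq r₂ b₂ hr₂ hb₂, hb]) (by rw [sq s₁ a₁ hs₁ ha₁, sq s₂ a₂ hs₂ ha₂, ha])
    exact this
  have hright : ∀ z ∈ re ⁻¹' {(1 : ℝ)}, ‖F z‖ ≤ 1 := by
    intro z hz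
    have hz' : z.re = 1 := hz
    have hz0 : z.re ≠ 0 := by rw [hz']; norm_num
    have q : ∀ (s c : ℝ), |s| = 1 → 0 ≤ c → ‖(s : ℂ) * (c : ℂ) ^ z‖ = c := fun s c hs hc => by
      rw [norm_mul, n1 s hs, one_mul, hn c hc z hz0, hz', Real.rpow_one]
    have e1 : ‖F z‖ ≤ b₁ * (a₁ + a₂) + b₂ * (a₁ + a₂) := by
      simp only [hF]
      refine (norm_add_le _ _).trans (add_le_add ?_ ?_)
      · rw [norm_mul, q r₁ b₁ hr₁ hb₁]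
        refine mul_le_mul_of_nonneg_left ((norm_add_le _ _).trans ?_) hb₁
        rw [q s₁ a₁ hs₁ ha₁, q s₂ a₂ hs₂ ha₂]
      · rw [norm_mul, q r₂ b₂ hr₂ hb₂]
        refine mul_le_mul_of_nonneg_left ((norm_sub_le _ _).trans ?_) hb₂
        rw [q s₁ a₁ hs₁ ha₁, q s₂ a₂ hs₂ ha₂]
    rw [ha] at e1
    linarith
  have hmain := HadamardThreeLines.norm_le_interp_of_mem_verticalClosedStrip'
    (f := F) (z := (x : ℂ)) (l := 1 / 2) (u := 1) (by norm_num) ⟨by simpa using hx1, by simpa using hx2⟩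
    hd hB hleft hright
  have e2 : F (x : ℂ) = ((r₁ * b₁ ^ x * (s₁ * a₁ ^ x + s₂ * a₂ ^ x)
      + r₂ * b₂ ^ x * (s₁ * a₁ ^ x - s₂ * a₂ ^ x) : ℝ) : ℂ) := by
    simp only [hF]
    push_cast
    rw [Complex.ofReal_cpow ha₁, Complex.ofReal_cpow ha₂, Complex.ofReal_cpow hb₁,
      Complex.ofReal_cpow hb₂]
  rw [e2, Complex.norm_real, Real.norm_eq_abs, Real.one_rpow, mul_one, Complex.ofReal_re,
    Real.sqrt_eq_rpow, ← Real.rpow_mul (by norm_num)] at hmain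
  refine hmain.trans (le_of_eq ?_)
  congr 1
  ring

end Pool.Agent.helper76.BM
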