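import Mathlib

/-!
Hanner's inequality on the line and a four point consequence, in both ranges of exponents.
-/

open Real Set

namespace Pool.Agent.helper76.BM

theorem four_concave {α : ℝ} (h0 : 0 ≤ α) (h1 : α ≤ 1) {x y h : ℝ} (hx : 0 ≤ x) (hxy : x ≤ y)
    (hh : 0 ≤ h) : (y + h) ^ α - y ^ α ≤ (x + h) ^ α - x ^ α := by
  rcases eq_or_lt_of_le (show 0 ≤ y + h - x by linarith) with h2 | h2
  · have e1 : h = 0 := by linarith
    subst e1; simp
  · have hc := Real.concaveOn_rpow h0 h1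
    have hz : (y + h) ∈ Ici (0 : ℝ) := by simp only [mem_Ici]; linarith
    set θ := h / (y + h - x) with hθ
    have t0 : 0 ≤ θ := div_nonneg hh h2.le
    have t1 : θ ≤ 1 := by rw [hθ, div_le_one h2]; linarith
    have hθm : θ * (y + h - x) = h := div_mul_cancel₀ _ h2.ne'
    have a1 := hc.2 (show x ∈ Ici (0 : ℝ) from hx) hz (show 0 ≤ 1 - θ by linarith) t0 (by ring)
    have a2 := hc.2 (show x ∈ Ici (0 : ℝ) from hx) hz t0 (show 0 ≤ 1 - θ by linarith) (by ring)
    simp only [smul_eq_mul] at a1 a2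
    have e1 : (1 - θ) * x + θ * (y + h) = x + h := by linear_combination hθm
    have e2 : θ * x + (1 - θ) * (y + h) = y := by linear_combination -hθm
    rw [e1] at a1
    rw [e2] at a2
    nlinarith

theorem four_convex {α : ℝ} (h1 : 1 ≤ α) {x y h : ℝ} (hx : 0 ≤ x) (hxy : x ≤ y)
    (hh : 0 ≤ h) : (x + h) ^ α - x ^ α ≤ (y + h) ^ α - y ^ α := by
  rcases eq_or_lt_of_le (show 0 ≤ y + h - x by linarith) with h2 | h2
  · have e1 : h = 0 := by linarith
    subst e1; simp
  · have hc := convexOn_rpow h1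
    have hz : (y + h) ∈ Ici (0 : ℝ) := by simp only [mem_Ici]; linarith
    set θ := h / (y + h - x) with hθ
    have t0 : 0 ≤ θ := div_nonneg hh h2.le
    have t1 : θ ≤ 1 := by rw [hθ, div_le_one h2]; linarith
    have hθm : θ * (y + h - x) = h := div_mul_cancel₀ _ h2.ne'
    have a1 := hc.2 (show x ∈ Ici (0 : ℝ) from hx) hz (show 0 ≤ 1 - θ by linarith) t0 (by ring)
    have a2 := hc.2 (show x ∈ Ici (0 : ℝ) from hx) hz t0 (show 0 ≤ 1 - θ by linarith) (by ring)
    simp only [smul_eq_mul] at a1 a2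
    have e1 : (1 - θ) * x + θ * (y + h) = x + h := by linear_combination hθm
    have e2 : θ * x + (1 - θ) * (y + h) = y := by linear_combination -hθm
    rw [e1] at a1
    rw [e2] at a2
    nlinarith

theorem sig_nonneg {p x : ℝ} (hp : 1 < p) (hx : 0 ≤ x) : |x| ^ (p - 2) * x = x ^ (p - 1) := by
  rcases eq_or_lt_of_le hx with h | h
  · subst h; rw [mul_zero, Real.zero_rpow (by linarith)]
  · rw [abs_of_pos h, ← Real.rpow_add_one h.ne']; congr 1; ring

theorem sig_nonpos {p x : ℝ} (hp : 1 < p) (hx : x ≤ 0) :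
    |x| ^ (p - 2) * x = -(-x) ^ (p - 1) := by
  have := sig_nonneg hp (show 0 ≤ -x by linarith)
  rw [abs_neg] at this
  linarith

/-- the sign of the derivative, concave range -/
theorem der_concave {p t R : ℝ} (hp1 : 1 < p) (hp2 : p ≤ 2) (ht0 : 0 ≤ t) (ht1 : t ≤ 1)
    (hR : 0 ≤ R) :
    (R ≤ 1 → |1 + R * t| ^ (p - 2) * (1 + R * t) - |1 - R * t| ^ (p - 2) * (1 - R * t) ≤
      R ^ (p - 1) * ((1 + t) ^ (p - 1) - (1 - t) ^ (p - 1))) ∧
    (1 ≤ R → R ^ (p - 1) * ((1 + t) ^ (p - 1) - (1 - t) ^ (p - 1)) ≤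
      |1 + R * t| ^ (p - 2) * (1 + R * t) - |1 - R * t| ^ (p - 2) * (1 - R * t)) := by
  have hRt : 0 ≤ R * t := mul_nonneg hR ht0
  have e1 : R ^ (p - 1) * ((1 + t) ^ (p - 1) - (1 - t) ^ (p - 1)) =
      (R + R * t) ^ (p - 1) - (R - R * t) ^ (p - 1) := by
    rw [mul_sub, ← Real.mul_rpow hR (by linarith), ← Real.mul_rpow hR (by linarith)]
    congr 2 <;> ring
  rw [e1, sig_nonneg hp1 (show 0 ≤ 1 + R * t by linarith)]
  have hα0 : 0 ≤ p - 1 := by linarith
  have hα1 : p - 1 ≤ 1 := by linarith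
  constructor
  · intro h
    rw [sig_nonneg hp1 (show 0 ≤ 1 - R * t by nlinarith)]
    have := four_concave hα0 hα1 (x := R - R * t) (y := 1 - R * t) (h := 2 * (R * t))
      (by nlinarith) (by linarith) (by linarith)
    rw [show 1 - R * t + 2 * (R * t) = 1 + R * t by ring,
      show R - R * t + 2 * (R * t) = R + R * t by ring] at this
    exact this
  · intro h
    rcases le_total (R * t) 1 with h3 | h3
    · rw [sig_nonneg hp1 (show 0 ≤ 1 - R * t by linarith)]
      have := four_concave hα0 hα1 (x := 1 - R * t) (y := R - R * t) (h := 2 * (R * t))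
        (by linarith) (by linarith) (by linarith)
      rw [show 1 - R * t + 2 * (R * t) = 1 + R * t by ring,
        show R - R * t + 2 * (R * t) = R + R * t by ring] at this
      exact this
    · rw [sig_nonpos hp1 (show 1 - R * t ≤ 0 by linarith)]
      have a1 := Real.rpow_add_le_add_rpow (a := R - R * t) (b := (1 + R * t) + -(1 - R * t))
        (by nlinarith) (by linarith) hα0 hα1
      have a2 := Real.rpow_add_le_add_rpow (a := 1 + R * t) (b := -(1 - R * t))
        (by linarith) (by linarith) hα0 hα1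
      rw [show R - R * t + (1 + R * t + -(1 - R * t)) = R + R * t by ring] at a1
      linarith

/-- the sign of the derivative, convex range -/
theorem der_convex {p t R : ℝ} (hp2 : 2 ≤ p) (ht0 : 0 ≤ t) (ht1 : t ≤ 1)
    (hR : 0 ≤ R) :
    (R ≤ 1 → R ^ (p - 1) * ((1 + t) ^ (p - 1) - (1 - t) ^ (p - 1)) ≤
      |1 + R * t| ^ (p - 2) * (1 + R * t) - |1 - R * t| ^ (p - 2) * (1 - R * t)) ∧
    (1 ≤ R → |1 + R * t| ^ (p - 2) * (1 + R * t) - |1 - R * t| ^ (p - 2) * (1 - R * t) ≤
      R ^ (p - 1) * ((1 + t) ^ (p - 1) - (1 - t) ^ (p - 1))) := by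
  have hp1 : 1 < p := by linarith
  have hRt : 0 ≤ R * t := mul_nonneg hR ht0
  have e1 : R ^ (p - 1) * ((1 + t) ^ (p - 1) - (1 - t) ^ (p - 1)) =
      (R + R * t) ^ (p - 1) - (R - R * t) ^ (p - 1) := by
    rw [mul_sub, ← Real.mul_rpow hR (by linarith), ← Real.mul_rpow hR (by linarith)]
    congr 2 <;> ring
  rw [e1, sig_nonneg hp1 (show 0 ≤ 1 + R * t by linarith)]
  have hα1 : 1 ≤ p - 1 := by linarith
  constructor
  · intro h
    rw [sig_nonneg hp1 (show 0 ≤ 1 - R * t by nlinarith)]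
    have := four_convex hα1 (x := R - R * t) (y := 1 - R * t) (h := 2 * (R * t))
      (by nlinarith) (by linarith) (by linarith)
    rw [show 1 - R * t + 2 * (R * t) = 1 + R * t by ring,
      show R - R * t + 2 * (R * t) = R + R * t by ring] at this
    exact this
  · intro h
    rcases le_total (R * t) 1 with h3 | h3
    · rw [sig_nonneg hp1 (show 0 ≤ 1 - R * t by linarith)]
      have := four_convex hα1 (x := 1 - R * t) (y := R - R * t) (h := 2 * (R * t))
        (by linarith) (by linarith) (by linarith)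
      rw [show 1 - R * t + 2 * (R * t) = 1 + R * t by ring,
        show R - R * t + 2 * (R * t) = R + R * t by ring] at this
      exact this
    · rw [sig_nonpos hp1 (show 1 - R * t ≤ 0 by linarith)]
      have a1 := Real.add_rpow_le_rpow_add (a := R - R * t) (b := (1 + R * t) + -(1 - R * t))
        (by nlinarith) (by linarith) hα1
      have a2 := Real.add_rpow_le_rpow_add (a := 1 + R * t) (b := -(1 - R * t))
        (by linarith) (by linarith) hα1
      rw [show R - R * t + (1 + R * t + -(1 - R * t)) = R + R * t by ring] at a1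
      linarith

theorem f_deriv {p : ℝ} (hp : 1 < p) (t c R : ℝ) (hR : 0 < R) :
    HasDerivAt (fun R : ℝ => |1 + R * t| ^ p + |1 - R * t| ^ p - t * c * R ^ p)
      (p * t * ((|1 + R * t| ^ (p - 2) * (1 + R * t) - |1 - R * t| ^ (p - 2) * (1 - R * t))
        - R ^ (p - 1) * c)) R := by
  have h1 : HasDerivAt (fun R : ℝ => 1 + R * t) t R := by
    simpa using ((hasDerivAt_id R).mul_const t).const_add 1
  have h2 : HasDerivAt (fun R : ℝ => 1 - R * t) (-t) R := by
    simpa using ((hasDerivAt_id R).mul_const t).const_sub 1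
  have a1 := (hasDerivAt_abs_rpow (1 + R * t) hp).comp R h1
  have a2 := (hasDerivAt_abs_rpow (1 - R * t) hp).comp R h2
  have a3 := (Real.hasDerivAt_rpow_const (x := R) (p := p) (Or.inl hR.ne')).const_mul (t * c)
  have := (a1.add a2).sub a3
  refine this.congr_deriv ?_
  ring

theorem f_cont (p : ℝ) (hp : 1 < p) (t c : ℝ) :
    Continuous (fun R : ℝ => |1 + R * t| ^ p + |1 - R * t| ^ p - t * c * R ^ p) := by
  have hp0 : 0 ≤ p := by linarith
  refine Continuous.sub (Continuous.add ?_ ?_) ?_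
  · exact (by fun_prop : Continuous fun R : ℝ => |1 + R * t|).rpow_const fun _ => Or.inr hp0
  · exact (by fun_prop : Continuous fun R : ℝ => |1 - R * t|).rpow_const fun _ => Or.inr hp0
  · exact continuous_const.mul (continuous_id.rpow_const fun _ => Or.inr hp0)

/-- Hanner's inequality with the first number equal to `1`, `1 < p ≤ 2`. -/
theorem hanner_one {p t R : ℝ} (hp1 : 1 < p) (hp2 : p ≤ 2) (ht0 : 0 ≤ t) (ht1 : t ≤ 1)
    (hR : 0 ≤ R) :
    ((1 + t) ^ (p - 1) + (1 - t) ^ (p - 1)) + t * ((1 + t) ^ (p - 1) - (1 - t) ^ (p - 1)) * R ^ p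
      ≤ |1 + R * t| ^ p + |1 - R * t| ^ p := by
  set c := (1 + t) ^ (p - 1) - (1 - t) ^ (p - 1) with hc
  set f : ℝ → ℝ := fun R => |1 + R * t| ^ p + |1 - R * t| ^ p - t * c * R ^ p with hf
  have hcont := f_cont p hp1 t c
  have hpt : 0 ≤ p * t := by positivity
  have key : f 1 ≤ f R := by
    rcases le_total R 1 with h | h
    · have hanti : AntitoneOn f (Icc 0 1) := by
        refine antitoneOn_of_deriv_nonpos (convex_Icc 0 1) hcont.continuousOn ?_ ?_
        · intro x hx
          rw [interior_Icc] at hx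
          exact (f_deriv hp1 t c x hx.1).differentiableAt.differentiableWithinAt
        · intro x hx
          rw [interior_Icc] at hx
          rw [(f_deriv hp1 t c x hx.1).deriv]
          have := (der_concave hp1 hp2 ht0 ht1 hx.1.le).1 hx.2.le
          exact mul_nonpos_of_nonneg_of_nonpos hpt (by linarith)
      exact hanti ⟨hR, h⟩ (right_mem_Icc.2 zero_le_one) h
    · have hmono : MonotoneOn f (Ici 1) := by
        refine monotoneOn_of_deriv_nonneg (convex_Ici 1) hcont.continuousOn ?_ ?_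
        · intro x hx
          rw [interior_Ici] at hx
          have hx' : 0 < x := lt_trans one_pos hx
          exact (f_deriv hp1 t c x hx').differentiableAt.differentiableWithinAt
        · intro x hx
          rw [interior_Ici] at hx
          have hx' : 0 < x := lt_trans one_pos hx
          rw [(f_deriv hp1 t c x hx').deriv]
          have := (der_concave hp1 hp2 ht0 ht1 hx'.le).2 (le_of_lt hx)
          exact mul_nonneg hpt (by linarith)
      exact hmono (show (1 : ℝ) ∈ Ici 1 from le_refl (1 : ℝ)) h h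
  have e1 : f 1 = (1 + t) ^ p + (1 - t) ^ p - t * c := by
    simp only [hf, one_mul, Real.one_rpow, mul_one]
    rw [abs_of_nonneg (by linarith : (0 : ℝ) ≤ 1 + t), abs_of_nonneg (by linarith : (0 : ℝ) ≤ 1 - t)]
  have e2 : (1 + t) ^ p = (1 + t) ^ (p - 1) * (1 + t) := by
    rw [← Real.rpow_add_one (by linarith : (1 + t) ≠ 0)]; congr 1; ring
  have e3 : (1 - t) ^ p = (1 - t) ^ (p - 1) * (1 - t) := by
    rcases eq_or_lt_of_le ht1 with h | h
    · subst h; rw [sub_self, mul_zero, Real.zero_rpow (by linarith)]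
    · rw [← Real.rpow_add_one (by linarith : (1 - t) ≠ 0)]; congr 1; ring
  have key2 : f 1 = (1 + t) ^ (p - 1) + (1 - t) ^ (p - 1) := by
    rw [e1, e2, e3, hc]; ring
  have key3 : f R = |1 + R * t| ^ p + |1 - R * t| ^ p - t * c * R ^ p := rfl
  linarith

/-- The reversed inequality for `2 ≤ p`. -/
theorem hanner_one_rev {p t R : ℝ} (hp2 : 2 ≤ p) (ht0 : 0 ≤ t) (ht1 : t ≤ 1)
    (hR : 0 ≤ R) :
    |1 + R * t| ^ p + |1 - R * t| ^ p ≤
    ((1 + t) ^ (p - 1) + (1 - t) ^ (p - 1)) + t * ((1 + t) ^ (p - 1) - (1 - t) ^ (p - 1)) * R ^ p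
      := by
  have hp1 : 1 < p := by linarith
  set c := (1 + t) ^ (p - 1) - (1 - t) ^ (p - 1) with hc
  set f : ℝ → ℝ := fun R => |1 + R * t| ^ p + |1 - R * t| ^ p - t * c * R ^ p with hf
  have hcont := f_cont p hp1 t c
  have hpt : 0 ≤ p * t := by positivity
  have key : f R ≤ f 1 := by
    rcases le_total R 1 with h | h
    · have hanti : MonotoneOn f (Icc 0 1) := by
        refine monotoneOn_of_deriv_nonneg (convex_Icc 0 1) hcont.continuousOn ?_ ?_
        · intro x hx
          rw [interior_Icc] at hx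
          exact (f_deriv hp1 t c x hx.1).differentiableAt.differentiableWithinAt
        · intro x hx
          rw [interior_Icc] at hx
          rw [(f_deriv hp1 t c x hx.1).deriv]
          have := (der_convex hp2 ht0 ht1 hx.1.le).1 hx.2.le
          exact mul_nonneg hpt (by linarith)
      exact hanti ⟨hR, h⟩ (right_mem_Icc.2 zero_le_one) h
    · have hmono : AntitoneOn f (Ici 1) := by
        refine antitoneOn_of_deriv_nonpos (convex_Ici 1) hcont.continuousOn ?_ ?_
        · intro x hx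
          rw [interior_Ici] at hx
          have hx' : 0 < x := lt_trans one_pos hx
          exact (f_deriv hp1 t c x hx').differentiableAt.differentiableWithinAt
        · intro x hx
          rw [interior_Ici] at hx
          have hx' : 0 < x := lt_trans one_pos hx
          rw [(f_deriv hp1 t c x hx').deriv]
          have := (der_convex hp2 ht0 ht1 hx'.le).2 (le_of_lt hx)
          exact mul_nonpos_of_nonneg_of_nonpos hpt (by linarith)
      exact hmono (show (1 : ℝ) ∈ Ici 1 from le_refl (1 : ℝ)) h h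
  have e1 : f 1 = (1 + t) ^ p + (1 - t) ^ p - t * c := by
    simp only [hf, one_mul, Real.one_rpow, mul_one]
    rw [abs_of_nonneg (by linarith : (0 : ℝ) ≤ 1 + t), abs_of_nonneg (by linarith : (0 : ℝ) ≤ 1 - t)]
  have e2 : (1 + t) ^ p = (1 + t) ^ (p - 1) * (1 + t) := by
    rw [← Real.rpow_add_one (by linarith : (1 + t) ≠ 0)]; congr 1; ring
  have e3 : (1 - t) ^ p = (1 - t) ^ (p - 1) * (1 - t) := by
    rcases eq_or_lt_of_le ht1 with h | h
    · subst h; rw [sub_self, mul_zero, Real.zero_rpow (by linarith)]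
    · rw [← Real.rpow_add_one (by linarith : (1 - t) ≠ 0)]; congr 1; ring
  have key2 : f 1 = (1 + t) ^ (p - 1) + (1 - t) ^ (p - 1) := by
    rw [e1, e2, e3, hc]; ring
  have key3 : f R = |1 + R * t| ^ p + |1 - R * t| ^ p - t * c * R ^ p := rfl
  linarith

theorem scale_pair {a b t : ℝ} (ha : a ≠ 0) {p : ℝ} :
    |a + b * t| ^ p + |a - b * t| ^ p =
      |a| ^ p * (|1 + |b| / |a| * t| ^ p + |1 - |b| / |a| * t| ^ p) := by
  have ha' : 0 < |a| := abs_pos.2 ha
  have e : ∀ s : ℝ, |a| ^ p * |1 + s| ^ p = |a + a * s| ^ p := fun s => by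
    rw [← Real.mul_rpow (abs_nonneg _) (abs_nonneg _), ← abs_mul]; congr 2; ring
  rw [mul_add, show 1 - |b| / |a| * t = 1 + -(|b| / |a| * t) by ring, e, e]
  have hs : ∀ x : ℝ, |a| * x = |a| * x := fun _ => rfl
  rcases abs_cases a with ⟨h1, h1'⟩ | ⟨h1, h1'⟩ <;> rcases abs_cases b with ⟨h2, h2'⟩ | ⟨h2, h2'⟩ <;>
    rw [h1, h2]
  · have e3 : a * (b / a * t) = b * t := by field_simp
    have e4 : a * -(b / a * t) = -(b * t) := by field_simp
    rw [e3, e4, ← sub_eq_add_neg]
  · have e3 : a * (-b / a * t) = -(b * t) := by field_simp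
    have e4 : a * -(-b / a * t) = b * t := by field_simp
    rw [e3, e4, ← sub_eq_add_neg, add_comm]
  · have e3 : a * (b / -a * t) = -(b * t) := by field_simp
    have e4 : a * -(b / -a * t) = b * t := by field_simp
    rw [e3, e4, ← sub_eq_add_neg, add_comm]
  · have e3 : a * (-b / -a * t) = b * t := by field_simp
    have e4 : a * -(-b / -a * t) = -(b * t) := by field_simp
    rw [e3, e4, ← sub_eq_add_neg]

/-- Hanner's inequality, `1 ≤ p ≤ 2`. -/
theorem hanner_le {p t : ℝ} (hp1 : 1 ≤ p) (hp2 : p ≤ 2) (ht0 : 0 ≤ t) (ht1 : t ≤ 1) (a b : ℝ) :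
    ((1 + t) ^ (p - 1) + (1 - t) ^ (p - 1)) * |a| ^ p
      + t * ((1 + t) ^ (p - 1) - (1 - t) ^ (p - 1)) * |b| ^ p
      ≤ |a + b * t| ^ p + |a - b * t| ^ p := by
  rcases eq_or_lt_of_le hp1 with h | h
  · subst h
    simp only [sub_self, Real.rpow_zero, Real.rpow_one, mul_zero, zero_mul, add_zero]
    have h1 := abs_add_le (a + b * t) (a - b * t)
    rw [show a + b * t + (a - b * t) = 2 * a by ring, abs_mul, abs_two] at h1
    linarith
  · by_cases ha : a = 0
    · subst ha
      rw [abs_zero, Real.zero_rpow (by linarith), mul_zero, zero_add, zero_add, zero_sub, abs_neg,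
        abs_mul, abs_of_nonneg ht0, Real.mul_rpow (abs_nonneg b) ht0]
      have h3 : (1 + t) ^ (p - 1) - (1 - t) ^ (p - 1) ≤ 2 * t ^ (p - 1) := by
        have a1 := Real.rpow_add_le_add_rpow (a := 1 - t) (b := t + t) (by linarith) (by linarith)
          (show 0 ≤ p - 1 by linarith) (by linarith)
        have a2 := Real.rpow_add_le_add_rpow (a := t) (b := t) ht0 ht0
          (show 0 ≤ p - 1 by linarith) (by linarith)
        rw [show 1 - t + (t + t) = 1 + t by ring] at a1
        linarith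
      have h4 : t ^ p = t * t ^ (p - 1) := by
        rcases eq_or_lt_of_le ht0 with h0 | h0
        · rw [← h0, Real.zero_rpow (by linarith), zero_mul]
        · rw [mul_comm, ← Real.rpow_add_one h0.ne']; congr 1; ring
      have h5 : 0 ≤ |b| ^ p := Real.rpow_nonneg (abs_nonneg b) p
      rw [h4]
      have h6 : t * ((1 + t) ^ (p - 1) - (1 - t) ^ (p - 1)) ≤ t * (2 * t ^ (p - 1)) :=
        mul_le_mul_of_nonneg_left h3 ht0
      nlinarith [mul_le_mul_of_nonneg_right h6 h5]
    · rw [scale_pair ha]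
      have h1 := hanner_one h hp2 ht0 ht1 (R := |b| / |a|) (by positivity)
      have ha' : 0 < |a| := abs_pos.2 ha
      have h2 : (|b| / |a|) ^ p = |b| ^ p / |a| ^ p := Real.div_rpow (abs_nonneg _) (abs_nonneg _) _
      have h3 : 0 < |a| ^ p := Real.rpow_pos_of_pos ha' p
      have h4 : |a| ^ p * (|b| / |a|) ^ p = |b| ^ p := by
        rw [h2]; field_simp
      calc _ = |a| ^ p * (((1 + t) ^ (p - 1) + (1 - t) ^ (p - 1))
            + t * ((1 + t) ^ (p - 1) - (1 - t) ^ (p - 1)) * (|b| / |a|) ^ p) := by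
            rw [← h4]; ring
        _ ≤ _ := mul_le_mul_of_nonneg_left h1 h3.le

/-- The reversed inequality, `2 ≤ p`. -/
theorem hanner_ge {p t : ℝ} (hp2 : 2 ≤ p) (ht0 : 0 ≤ t) (ht1 : t ≤ 1) (a b : ℝ) :
    |a + b * t| ^ p + |a - b * t| ^ p ≤
    ((1 + t) ^ (p - 1) + (1 - t) ^ (p - 1)) * |a| ^ p
      + t * ((1 + t) ^ (p - 1) - (1 - t) ^ (p - 1)) * |b| ^ p := by
  have h : 1 < p := by linarith
  by_cases ha : a = 0
  · subst ha
    rw [abs_zero, Real.zero_rpow (by linarith), mul_zero, zero_add, zero_add, zero_sub, abs_neg,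
      abs_mul, abs_of_nonneg ht0, Real.mul_rpow (abs_nonneg b) ht0]
    have h3 : 2 * t ^ (p - 1) ≤ (1 + t) ^ (p - 1) - (1 - t) ^ (p - 1) := by
      have a1 := Real.add_rpow_le_rpow_add (a := 1 - t) (b := t + t) (by linarith) (by linarith)
        (show 1 ≤ p - 1 by linarith)
      have a2 := Real.add_rpow_le_rpow_add (a := t) (b := t) ht0 ht0
        (show 1 ≤ p - 1 by linarith)
      rw [show 1 - t + (t + t) = 1 + t by ring] at a1
      linarith
    have h4 : t ^ p = t * t ^ (p - 1) := by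
      rcases eq_or_lt_of_le ht0 with h0 | h0
      · rw [← h0, Real.zero_rpow (by linarith), zero_mul]
      · rw [mul_comm, ← Real.rpow_add_one h0.ne']; congr 1; ring
    have h5 : 0 ≤ |b| ^ p := Real.rpow_nonneg (abs_nonneg b) p
    rw [h4]
    have h6 : t * (2 * t ^ (p - 1)) ≤ t * ((1 + t) ^ (p - 1) - (1 - t) ^ (p - 1)) :=
      mul_le_mul_of_nonneg_left h3 ht0
    nlinarith [mul_le_mul_of_nonneg_right h6 h5]
  · rw [scale_pair ha]
    have h1 := hanner_one_rev hp2 ht0 ht1 (R := |b| / |a|) (by positivity)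
    have ha' : 0 < |a| := abs_pos.2 ha
    have h2 : (|b| / |a|) ^ p = |b| ^ p / |a| ^ p := Real.div_rpow (abs_nonneg _) (abs_nonneg _) _
    have h3 : 0 < |a| ^ p := Real.rpow_pos_of_pos ha' p
    have h4 : |a| ^ p * (|b| / |a|) ^ p = |b| ^ p := by
      rw [h2]; field_simp
    calc _ ≤ |a| ^ p * (((1 + t) ^ (p - 1) + (1 - t) ^ (p - 1))
          + t * ((1 + t) ^ (p - 1) - (1 - t) ^ (p - 1)) * (|b| / |a|) ^ p) :=
          mul_le_mul_of_nonneg_left h1 h3.le
      _ = _ := by rw [← h4]; ring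

theorem top_split {p t : ℝ} (hp : 1 ≤ p) (ht0 : 0 ≤ t) (ht1 : t ≤ 1) :
    ((1 + t) ^ (p - 1) + (1 - t) ^ (p - 1)) + t * ((1 + t) ^ (p - 1) - (1 - t) ^ (p - 1)) =
      (1 + t) ^ p + (1 - t) ^ p := by
  have e2 : (1 + t) ^ p = (1 + t) ^ (p - 1) * (1 + t) := by
    rw [← Real.rpow_add_one (by linarith : (1 + t) ≠ 0)]; congr 1; ring
  have e3 : (1 - t) ^ p = (1 - t) ^ (p - 1) * (1 - t) := by
    rcases eq_or_lt_of_le ht1 with h | h
    · subst h; rw [sub_self, mul_zero, Real.zero_rpow (by linarith)]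
    · rw [← Real.rpow_add_one (by linarith : (1 - t) ≠ 0)]; congr 1; ring
  rw [e2, e3]; ring

/-- The four point inequality, `1 ≤ p ≤ 2`. -/
theorem four_le {p u v : ℝ} (hp1 : 1 ≤ p) (hp2 : p ≤ 2) (hv : 0 ≤ v) (hvu : v ≤ u) (a b : ℝ) :
    (|a| ^ p + |b| ^ p) * ((u + v) ^ p + (u - v) ^ p) ≤
      (|a * u + b * v| ^ p + |a * u - b * v| ^ p) + (|a * v + b * u| ^ p + |a * v - b * u| ^ p) := by
  rcases eq_or_lt_of_le (le_trans hv hvu) with h | h
  · have e1 : u = 0 := h.symm
    have e2 : v = 0 := by linarith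
    subst e1; subst e2
    simp [Real.zero_rpow (by linarith : p ≠ 0)]
  · set t := v / u with ht
    have hv' : v = u * t := by rw [ht]; field_simp
    have ht0 : 0 ≤ t := div_nonneg hv h.le
    have ht1 : t ≤ 1 := by rw [ht, div_le_one h]; exact hvu
    have hup : 0 < u ^ p := Real.rpow_pos_of_pos h p
    have sc : ∀ x : ℝ, |u * x| ^ p = u ^ p * |x| ^ p := fun x => by
      rw [abs_mul, abs_of_pos h, Real.mul_rpow h.le (abs_nonneg x)]
    have e1 : |a * u + b * v| ^ p = u ^ p * |a + b * t| ^ p := by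
      rw [← sc, hv']; congr 2; ring
    have e2 : |a * u - b * v| ^ p = u ^ p * |a - b * t| ^ p := by
      rw [← sc, hv']; congr 2; ring
    have e3 : |a * v + b * u| ^ p = u ^ p * |b + a * t| ^ p := by
      rw [← sc, hv']; congr 2; ring
    have e4 : |a * v - b * u| ^ p = u ^ p * |b - a * t| ^ p := by
      rw [← sc, ← abs_neg, hv']; congr 2; ring
    have e5 : (u + v) ^ p = u ^ p * (1 + t) ^ p := by
      rw [← Real.mul_rpow h.le (by linarith), hv']; congr 1; ring
    have e6 : (u - v) ^ p = u ^ p * (1 - t) ^ p := by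
      rw [← Real.mul_rpow h.le (by linarith), hv']; congr 1; ring
    rw [e1, e2, e3, e4, e5, e6]
    have h1 := hanner_le hp1 hp2 ht0 ht1 a b
    have h2 := hanner_le hp1 hp2 ht0 ht1 b a
    have h3 := top_split hp1 ht0 ht1
    have h4 : (|a| ^ p + |b| ^ p) * ((1 + t) ^ p + (1 - t) ^ p) ≤
        (|a + b * t| ^ p + |a - b * t| ^ p) + (|b + a * t| ^ p + |b - a * t| ^ p) := by
      rw [← h3]; linarith
    calc _ = u ^ p * ((|a| ^ p + |b| ^ p) * ((1 + t) ^ p + (1 - t) ^ p)) := by ring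
      _ ≤ u ^ p * ((|a + b * t| ^ p + |a - b * t| ^ p) + (|b + a * t| ^ p + |b - a * t| ^ p)) :=
        mul_le_mul_of_nonneg_left h4 hup.le
      _ = _ := by ring

/-- The four point inequality, `2 ≤ p`. -/
theorem four_ge {p u v : ℝ} (hp2 : 2 ≤ p) (hv : 0 ≤ v) (hvu : v ≤ u) (a b : ℝ) :
      (|a * u + b * v| ^ p + |a * u - b * v| ^ p) + (|a * v + b * u| ^ p + |a * v - b * u| ^ p) ≤
    (|a| ^ p + |b| ^ p) * ((u + v) ^ p + (u - v) ^ p) := by
  have hp1 : 1 ≤ p := by linarith
  rcases eq_or_lt_of_le (le_trans hv hvu) with h | h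
  · have e1 : u = 0 := h.symm
    have e2 : v = 0 := by linarith
    subst e1; subst e2
    simp [Real.zero_rpow (by linarith : p ≠ 0)]
  · set t := v / u with ht
    have hv' : v = u * t := by rw [ht]; field_simp
    have ht0 : 0 ≤ t := div_nonneg hv h.le
    have ht1 : t ≤ 1 := by rw [ht, div_le_one h]; exact hvu
    have hup : 0 < u ^ p := Real.rpow_pos_of_pos h p
    have sc : ∀ x : ℝ, |u * x| ^ p = u ^ p * |x| ^ p := fun x => by
      rw [abs_mul, abs_of_pos h, Real.mul_rpow h.le (abs_nonneg x)]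
    have e1 : |a * u + b * v| ^ p = u ^ p * |a + b * t| ^ p := by
      rw [← sc, hv']; congr 2; ring
    have e2 : |a * u - b * v| ^ p = u ^ p * |a - b * t| ^ p := by
      rw [← sc, hv']; congr 2; ring
    have e3 : |a * v + b * u| ^ p = u ^ p * |b + a * t| ^ p := by
      rw [← sc, hv']; congr 2; ring
    have e4 : |a * v - b * u| ^ p = u ^ p * |b - a * t| ^ p := by
      rw [← sc, ← abs_neg, hv']; congr 2; ring
    have e5 : (u + v) ^ p = u ^ p * (1 + t) ^ p := by
      rw [← Real.mul_rpow h.le (by linarith), hv']; congr 1; ring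
    have e6 : (u - v) ^ p = u ^ p * (1 - t) ^ p := by
      rw [← Real.mul_rpow h.le (by linarith), hv']; congr 1; ring
    rw [e1, e2, e3, e4, e5, e6]
    have h1 := hanner_ge hp2 ht0 ht1 a b
    have h2 := hanner_ge hp2 ht0 ht1 b a
    have h3 := top_split hp1 ht0 ht1
    have h4 : (|a + b * t| ^ p + |a - b * t| ^ p) + (|b + a * t| ^ p + |b - a * t| ^ p) ≤
        (|a| ^ p + |b| ^ p) * ((1 + t) ^ p + (1 - t) ^ p) := by
      rw [← h3]; linarith
    calc _ = u ^ p * ((|a + b * t| ^ p + |a - b * t| ^ p) + (|b + a * t| ^ p + |b - a * t| ^ p)) := by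
          ring
      _ ≤ u ^ p * ((|a| ^ p + |b| ^ p) * ((1 + t) ^ p + (1 - t) ^ p)) :=
        mul_le_mul_of_nonneg_left h4 hup.le
      _ = _ := by ring

end Pool.Agent.helper76.BM
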