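import Pool.Agent.helper76.BM.Norms

/-!
The Banach-Mazur distance between the planar balls of `ℓ_p` and `ℓ_q` for `p < 2 < q`.
-/

open Real Set
open scoped ENNReal Pointwise

namespace Pool.Agent.helper76.BM

/-- The ball `L(d;p)`, `1 ≤ p ≤ ∞`; for `p = ∞` it is the cube. -/
noncomputable def L (d : ℕ) (p : ℝ≥0∞) : Set (Fin d → ℝ) :=
  if p = ⊤ then {x | ∀ i, |x i| ≤ 1} else {x | ∑ i, |x i| ^ p.toReal ≤ 1}

/-- The Banach-Mazur distance, logarithmic normalisation. -/
noncomputable def dBM {d : ℕ} (C D : Set (Fin d → ℝ)) : ℝ :=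
  sInf {r : ℝ | ∃ (lam : ℝ) (f : (Fin d → ℝ) ≃ᵃ[ℝ] (Fin d → ℝ)), 0 < lam ∧ r = Real.log lam ∧
    f '' D ⊆ C ∧ C ⊆ lam • (f '' D)}

/-- The norm of `ℓ_p` on the plane. -/
noncomputable def nrm (p : ℝ≥0∞) (a b : ℝ) : ℝ :=
  if p = ⊤ then max |a| |b| else (|a| ^ p.toReal + |b| ^ p.toReal) ^ (1 / p.toReal)

theorem nrm_eq {p : ℝ≥0∞} (hp : p ≠ ⊤) (a b : ℝ) : nrm p a b = nr p.toReal a b := by
  simp [nrm, nr, hp]

theorem nrm_top (a b : ℝ) : nrm ⊤ a b = max |a| |b| := by simp [nrm]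

theorem toReal_pos' {p : ℝ≥0∞} (hp : 1 ≤ p) (h : p ≠ ⊤) : 0 < p.toReal :=
  ENNReal.toReal_pos (by intro h0; rw [h0] at hp; simp at hp) h

theorem nrm_nonneg (p : ℝ≥0∞) (a b : ℝ) : 0 ≤ nrm p a b := by
  unfold nrm
  split_ifs
  · exact le_max_of_le_left (abs_nonneg a)
  · exact Real.rpow_nonneg (nr_base_nonneg _ a b) _

theorem nrm_smul {p : ℝ≥0∞} (hp : 1 ≤ p) (c a b : ℝ) :
    nrm p (c * a) (c * b) = |c| * nrm p a b := by
  by_cases h : p = ⊤
  · subst h
    rw [nrm_top, nrm_top, abs_mul, abs_mul, ← mul_max_of_nonneg _ _ (abs_nonneg c)]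
  · rw [nrm_eq h, nrm_eq h, nr_smul (toReal_pos' hp h)]

theorem abs_le_nrm {p : ℝ≥0∞} (hp : 1 ≤ p) (a b : ℝ) : |a| ≤ nrm p a b ∧ |b| ≤ nrm p a b := by
  by_cases h : p = ⊤
  · subst h
    rw [nrm_top]; exact ⟨le_max_left _ _, le_max_right _ _⟩
  · rw [nrm_eq h]; exact abs_le_nr (toReal_pos' hp h) a b

theorem mem_L {p : ℝ≥0∞} (hp : 1 ≤ p) (x : Fin 2 → ℝ) : x ∈ L 2 p ↔ nrm p (x 0) (x 1) ≤ 1 := by
  by_cases h : p = ⊤
  · subst h
    simp [L, nrm_top]
  · have hp' := toReal_pos' hp h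
    rw [nrm_eq h, L, if_neg h, Set.mem_ofPred_eq, Fin.sum_univ_two, ← nr_pow hp']
    constructor
    · intro h1
      by_contra hcon
      exact absurd h1 (not_le.2 (Real.one_lt_rpow (not_le.1 hcon) hp'))
    · intro h1
      exact Real.rpow_le_one (nr_nonneg _ _ _) h1 hp'.le

theorem nrm_zero {p : ℝ≥0∞} (hp : 1 ≤ p) : nrm p 0 0 = 0 := by
  have := nrm_smul hp 0 0 0
  simpa using this

theorem nrm_eq_zero {p : ℝ≥0∞} (hp : 1 ≤ p) {a b : ℝ} (h : nrm p a b = 0) : a = 0 ∧ b = 0 := by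
  obtain ⟨h1, h2⟩ := abs_le_nrm hp a b
  rw [h] at h1 h2
  exact ⟨abs_eq_zero.1 (le_antisymm h1 (abs_nonneg _)), abs_eq_zero.1 (le_antisymm h2 (abs_nonneg _))⟩

/-- norms depend on the two absolute values only, up to order -/
theorem nrm_swap (p : ℝ≥0∞) (a b : ℝ) : nrm p b a = nrm p a b := by
  unfold nrm
  split_ifs
  · rw [max_comm]
  · rw [add_comm]

theorem nrm_abs (p : ℝ≥0∞) {a b a' b' : ℝ} (h1 : |a| = |a'|) (h2 : |b| = |b'|) :
    nrm p a b = nrm p a' b' := by
  unfold nrm; rw [h1, h2]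

theorem convex_L {p : ℝ≥0∞} (hp : 1 ≤ p) : Convex ℝ (L 2 p) := by
  by_cases h : p = ⊤
  · subst h
    intro x hx y hy a b ha hb hab
    simp only [L, if_true, Set.mem_ofPred_eq, Pi.add_apply, Pi.smul_apply, smul_eq_mul] at *
    intro i
    calc |a * x i + b * y i| ≤ |a * x i| + |b * y i| := abs_add_le _ _
      _ = a * |x i| + b * |y i| := by rw [abs_mul, abs_mul, abs_of_nonneg ha, abs_of_nonneg hb]
      _ ≤ a * 1 + b * 1 := add_le_add (mul_le_mul_of_nonneg_left (hx i) ha)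
          (mul_le_mul_of_nonneg_left (hy i) hb)
      _ = 1 := by linarith
  · have h1 : 1 ≤ p.toReal := by
      have := (ENNReal.toReal_le_toReal (by simp) h).2 hp
      simpa using this
    intro x hx y hy a b ha hb hab
    simp only [L, if_neg h, Set.mem_ofPred_eq, Pi.add_apply, Pi.smul_apply, smul_eq_mul] at *
    have hc := convexOn_rpow h1
    have key : ∀ i, |a * x i + b * y i| ^ p.toReal ≤ a * |x i| ^ p.toReal + b * |y i| ^ p.toReal := by
      intro i
      have h2 : |a * x i + b * y i| ≤ a * |x i| + b * |y i| := by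
        refine (abs_add_le _ _).trans (le_of_eq ?_)
        rw [abs_mul, abs_mul, abs_of_nonneg ha, abs_of_nonneg hb]
      have h3 := hc.2 (Set.mem_Ici.2 (abs_nonneg (x i))) (Set.mem_Ici.2 (abs_nonneg (y i)))
        ha hb hab
      simp only [smul_eq_mul] at h3
      exact (Real.rpow_le_rpow (abs_nonneg _) h2 (by linarith)).trans h3
    calc _ ≤ ∑ i, (a * |x i| ^ p.toReal + b * |y i| ^ p.toReal) := Finset.sum_le_sum fun i _ => key i
      _ = a * ∑ i, |x i| ^ p.toReal + b * ∑ i, |y i| ^ p.toReal := by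
          rw [Finset.sum_add_distrib, Finset.mul_sum, Finset.mul_sum]
      _ ≤ a * 1 + b * 1 := add_le_add (mul_le_mul_of_nonneg_left hx ha)
          (mul_le_mul_of_nonneg_left hy hb)
      _ = 1 := by linarith

theorem neg_mem_L {d : ℕ} {p : ℝ≥0∞} {x : Fin d → ℝ} (hx : x ∈ L d p) : -x ∈ L d p := by
  unfold L at *
  split_ifs at * <;> simpa using hx

/-- the exponent -/
noncomputable def kap (p q : ℝ≥0∞) : ℝ := min (1 / p.toReal) (1 - 1 / q.toReal)

theorem low {p q : ℝ≥0∞} (hp1 : 1 ≤ p) (hp2 : p < 2) (hq : 2 < q) (x y : ℝ) :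
    2 ^ kap p q * nrm q x y ≤ nrm p (x + y) (x - y) := by
  have hpt : p ≠ ⊤ := ne_top_of_lt hp2
  have P1 : 1 ≤ p.toReal := by
    have := (ENNReal.toReal_le_toReal (by simp) hpt).2 hp1
    simpa using this
  have P2 : p.toReal < 2 := by
    have := (ENNReal.toReal_lt_toReal hpt (by simp)).2 hp2
    simpa using this
  rw [nrm_eq hpt]
  by_cases h : q = ⊤
  · subst h
    have e : kap p ⊤ = 1 / p.toReal := by
      simp only [kap, ENNReal.toReal_top, div_zero, sub_zero]
      exact min_eq_left (by rw [div_le_one (by linarith)]; exact P1)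
    rw [e, nrm_top]
    exact low_top P1 P2.le x y
  · have Q2 : 2 < q.toReal := by
      have := (ENNReal.toReal_lt_toReal (by simp) h).2 hq
      simpa using this
    rw [nrm_eq h]
    set P := p.toReal with hP
    set Q := q.toReal with hQ
    have hP0 : 0 < P := by linarith
    have hQ0 : 0 < Q := by linarith
    rcases le_total (1 / P) (1 - 1 / Q) with h1 | h1
    · have e : kap p q = 1 / P := min_eq_left h1
      rw [e]
      have hP1 : 1 < P := by
        by_contra hcon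
        have : P = 1 := le_antisymm (not_lt.1 hcon) P1
        rw [this] at h1
        have : 0 < 1 / Q := by positivity
        linarith
      refine low_one hP1 P2.le ?_ x y
      have h2 : 1 / Q ≤ (P - 1) / P := by
        have : (P - 1) / P = 1 - 1 / P := by field_simp
        rw [this]; linarith
      rw [div_le_div_iff₀ hQ0 hP0] at h2
      rw [div_le_iff₀ (by linarith)]
      nlinarith
    · have e : kap p q = 1 - 1 / Q := min_eq_right h1
      rw [e]
      refine low_two P1 Q2.le ?_ x y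
      have h2 : (Q - 1) / Q ≤ 1 / P := by
        have : (Q - 1) / Q = 1 - 1 / Q := by field_simp
        rw [this]; linarith
      rw [div_le_div_iff₀ hQ0 hP0] at h2
      rw [le_div_iff₀ (by linarith)]
      nlinarith

/-- the ratio of the two norms along the rotated direction -/
noncomputable def rho (p q : ℝ≥0∞) (t : ℝ) : ℝ := nrm p (1 + t) (1 - t) / nrm q 1 t

theorem one_le_nrm {q : ℝ≥0∞} (hq : 1 ≤ q) (t : ℝ) : 1 ≤ nrm q 1 t := by
  have := (abs_le_nrm hq 1 t).1
  simpa using this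

theorem nrm_le_sum {p : ℝ≥0∞} (hp : 1 ≤ p) (a b : ℝ) : nrm p a b ≤ |a| + |b| := by
  by_cases h : p = ⊤
  · subst h
    rw [nrm_top]
    exact max_le (by linarith [abs_nonneg b]) (by linarith [abs_nonneg a])
  · have P1 : 1 ≤ p.toReal := by
      have := (ENNReal.toReal_le_toReal (by simp) h).2 hp
      simpa using this
    rw [nrm_eq h]
    refine (nr_anti one_pos P1 a b).trans (le_of_eq ?_)
    simp [nr]

theorem rho_bdd {p q : ℝ≥0∞} (hp : 1 ≤ p) (hq : 1 ≤ q) :
    BddAbove (Set.range fun t : Icc (0 : ℝ) 1 => rho p q t) := by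
  refine ⟨2, ?_⟩
  rintro _ ⟨⟨t, ht0, ht1⟩, rfl⟩
  have h1 := nrm_le_sum hp (1 + t) (1 - t)
  rw [abs_of_nonneg (by linarith : (0 : ℝ) ≤ 1 + t), abs_of_nonneg (by linarith : (0 : ℝ) ≤ 1 - t)] at h1
  have h2 := one_le_nrm hq t
  show rho p q t ≤ 2
  unfold rho
  rw [div_le_iff₀ (by linarith)]
  linarith

/-- the supremum of the ratios -/
noncomputable def Mx (p q : ℝ≥0∞) : ℝ := ⨆ t : Icc (0 : ℝ) 1, rho p q t

theorem one_le_Mx {p q : ℝ≥0∞} (hp : 1 ≤ p) (hq : 1 ≤ q) : 1 ≤ Mx p q := by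
  refine le_trans ?_ (le_ciSup (rho_bdd hp hq) ⟨0, by norm_num⟩)
  show 1 ≤ rho p q 0
  have h1 : nrm q 1 0 ≤ 1 := by
    have := nrm_le_sum hq 1 0
    simpa using this
  have h2 : 1 ≤ nrm p (1 + 0) (1 - 0) := by
    have := (abs_le_nrm hp (1 + 0) (1 - 0)).1
    simpa using this
  have h3 := one_le_nrm hq 0
  unfold rho
  rw [le_div_iff₀ (by linarith)]
  linarith

theorem upp_aux {p q : ℝ≥0∞} (hp : 1 ≤ p) (hq : 1 ≤ q) {u v : ℝ} (hv : 0 ≤ v) (hvu : v ≤ u) :
    nrm p (u + v) (u - v) ≤ Mx p q * nrm q u v := by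
  rcases eq_or_lt_of_le (le_trans hv hvu) with h | h
  · have e1 : u = 0 := h.symm
    have e2 : v = 0 := by linarith
    subst e1; subst e2
    simp [nrm_zero hp, nrm_zero hq]
  · have ht : v / u ∈ Icc (0 : ℝ) 1 := ⟨div_nonneg hv h.le, by rw [div_le_one h]; exact hvu⟩
    have h1 : rho p q (v / u) ≤ Mx p q := le_ciSup (rho_bdd hp hq) (⟨v / u, ht⟩ : Icc (0 : ℝ) 1)
    have h2 := one_le_nrm hq (v / u)
    unfold rho at h1
    rw [div_le_iff₀ (by linarith)] at h1
    have e1 := nrm_smul hp u (1 + v / u) (1 - v / u)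
    have e2 := nrm_smul hq u 1 (v / u)
    have e3 : u * (v / u) = v := by field_simp
    rw [mul_add, mul_sub, mul_one, e3, abs_of_pos h] at e1
    rw [mul_one, e3, abs_of_pos h] at e2
    rw [e1, e2]
    calc u * nrm p (1 + v / u) (1 - v / u) ≤ u * (Mx p q * nrm q 1 (v / u)) :=
          mul_le_mul_of_nonneg_left h1 h.le
      _ = _ := by ring

theorem upp {p q : ℝ≥0∞} (hp : 1 ≤ p) (hq : 1 ≤ q) (x y : ℝ) :
    nrm p (x + y) (x - y) ≤ Mx p q * nrm q x y := by
  have hxx : nrm q x y = nrm q |x| |y| := nrm_abs q (abs_abs x).symm (abs_abs y).symm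
  have key : nrm p (x + y) (x - y) = nrm p (|x| + |y|) (|x| - |y|) := by
    rcases abs_cases x with ⟨h1, h1'⟩ | ⟨h1, h1'⟩ <;>
      rcases abs_cases y with ⟨h2, h2'⟩ | ⟨h2, h2'⟩ <;> rw [h1, h2]
    · rw [← nrm_swap]
      exact nrm_abs p (by congr 1) (by congr 1; ring)
    · rw [← nrm_swap]
      exact nrm_abs p (by rw [← abs_neg]; congr 1; ring) (by rw [← abs_neg]; congr 1; ring)
    · exact nrm_abs p (by rw [← abs_neg]; congr 1; ring) (by rw [← abs_neg]; congr 1; ring)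
  rw [hxx, key]
  rcases le_total |y| |x| with h | h
  · exact upp_aux hp hq (abs_nonneg y) h
  · have := upp_aux hp hq (abs_nonneg x) h
    rw [← nrm_swap q]
    refine le_trans (le_of_eq ?_) this
    exact nrm_abs p (by rw [add_comm]) (by rw [← abs_neg]; congr 1; ring)

/-- the linear part of an admissible affine map -/
theorem linear_part {p q : ℝ≥0∞} (hp : 1 ≤ p) (hq : 1 ≤ q) {lam : ℝ} (hlam : 0 < lam)
    (f : (Fin 2 → ℝ) ≃ᵃ[ℝ] (Fin 2 → ℝ)) (h1 : f '' L 2 q ⊆ L 2 p)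
    (h2 : L 2 p ⊆ lam • (f '' L 2 q)) :
    ∃ A : (Fin 2 → ℝ) ≃ₗ[ℝ] (Fin 2 → ℝ),
      (∀ x, nrm p (A x 0) (A x 1) ≤ nrm q (x 0) (x 1)) ∧
      (∀ y, nrm q (A.symm y 0) (A.symm y 1) ≤ lam * nrm p (y 0) (y 1)) := by
  have hf : ∀ x, f x = f.linear x + f 0 := fun x => by
    have := f.map_vadd 0 x
    simpa using this
  refine ⟨f.linear, ?_, ?_⟩
  · have hD : ∀ x ∈ L 2 q, f.linear x ∈ L 2 p := by
      intro x hx
      have a1 : f x ∈ L 2 p := h1 ⟨x, hx, rfl⟩
      have a2 : -f (-x) ∈ L 2 p := neg_mem_L (h1 ⟨-x, neg_mem_L hx, rfl⟩)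
      have a3 := convex_L hp a1 a2 (show (0 : ℝ) ≤ 1 / 2 by norm_num)
        (show (0 : ℝ) ≤ 1 / 2 by norm_num) (by norm_num)
      have e : (1 / 2 : ℝ) • f x + (1 / 2 : ℝ) • -f (-x) = f.linear x := by
        rw [hf x, hf (-x), map_neg]
        module
      rwa [e] at a3
    intro x
    rcases eq_or_lt_of_le (nrm_nonneg q (x 0) (x 1)) with h | h
    · obtain ⟨e0, e1⟩ := nrm_eq_zero hq h.symm
      have : x = 0 := by ext i; fin_cases i <;> simpa
      subst this
      simp [nrm_zero hp, nrm_zero hq]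
    · set n := nrm q (x 0) (x 1) with hn
      have hx' : n⁻¹ • x ∈ L 2 q := by
        rw [mem_L hq, Pi.smul_apply, Pi.smul_apply, smul_eq_mul, smul_eq_mul, nrm_smul hq,
          abs_of_pos (inv_pos.2 h), ← hn, inv_mul_cancel₀ h.ne']
      have := hD _ hx'
      rw [mem_L hp, map_smul, Pi.smul_apply, Pi.smul_apply, smul_eq_mul, smul_eq_mul, nrm_smul hp,
        abs_of_pos (inv_pos.2 h), inv_mul_le_iff₀ h, mul_one] at this
      exact this
  · have hC : ∀ c ∈ L 2 p, ∃ z ∈ L 2 q, c = lam • f.linear z := by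
      intro c hc
      obtain ⟨_, ⟨x₁, hx₁, rfl⟩, e₁⟩ := h2 hc
      obtain ⟨_, ⟨x₂, hx₂, rfl⟩, e₂⟩ := h2 (neg_mem_L hc)
      simp only at e₁ e₂
      refine ⟨(1 / 2 : ℝ) • x₁ + (1 / 2 : ℝ) • -x₂, convex_L hq hx₁ (neg_mem_L hx₂)
        (by norm_num) (by norm_num) (by norm_num), ?_⟩
      have e3 : c = (1 / 2 : ℝ) • (lam • f x₁ - lam • f x₂) := by rw [e₁, e₂]; module
      rw [e3, hf x₁, hf x₂, map_add, map_smul, map_smul, map_neg]
      module
    intro y
    rcases eq_or_lt_of_le (nrm_nonneg p (y 0) (y 1)) with h | h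
    · obtain ⟨e0, e1⟩ := nrm_eq_zero hp h.symm
      have : y = 0 := by ext i; fin_cases i <;> simpa
      subst this
      simp [nrm_zero hp, nrm_zero hq]
    · set n := nrm p (y 0) (y 1) with hn
      have hy' : n⁻¹ • y ∈ L 2 p := by
        rw [mem_L hp, Pi.smul_apply, Pi.smul_apply, smul_eq_mul, smul_eq_mul, nrm_smul hp,
          abs_of_pos (inv_pos.2 h), ← hn, inv_mul_cancel₀ h.ne']
      obtain ⟨z, hz, e⟩ := hC _ hy'
      have e2 : f.linear.symm y = (n * lam) • z := by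
        rw [LinearEquiv.symm_apply_eq, map_smul, mul_smul, ← e, smul_smul, mul_inv_cancel₀ h.ne',
          one_smul]
      rw [e2, Pi.smul_apply, Pi.smul_apply, smul_eq_mul, smul_eq_mul, nrm_smul hq,
        abs_of_pos (mul_pos h hlam)]
      have hz' := (mem_L hq z).1 hz
      have : 0 < n * lam := mul_pos h hlam
      nlinarith

/-- a linear map of the plane in coordinates -/
theorem coords (A : (Fin 2 → ℝ) →ₗ[ℝ] (Fin 2 → ℝ)) (u v : ℝ) (i : Fin 2) :
    A ![u, v] i = A ![1, 0] i * u + A ![0, 1] i * v := by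
  have e : (![u, v] : Fin 2 → ℝ) = u • ![1, 0] + v • ![0, 1] := by
    ext j; fin_cases j <;> simp
  rw [e, map_add, map_smul, map_smul]
  simp only [Pi.add_apply, Pi.smul_apply, smul_eq_mul]
  ring

theorem lower {p q : ℝ≥0∞} (hp1 : 1 ≤ p) (hp2 : p < 2) (hq : 2 < q) {lam : ℝ} (hlam : 0 < lam)
    (f : (Fin 2 → ℝ) ≃ᵃ[ℝ] (Fin 2 → ℝ)) (h1 : f '' L 2 q ⊆ L 2 p)
    (h2 : L 2 p ⊆ lam • (f '' L 2 q)) {t : ℝ} (ht0 : 0 ≤ t) (ht1 : t ≤ 1) :
    rho p q t ≤ lam * 2 ^ kap p q := by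
  have hq1 : 1 ≤ q := le_trans (by norm_num) hq.le
  have hpt : p ≠ ⊤ := ne_top_of_lt hp2
  have P1 : 1 ≤ p.toReal := by
    have := (ENNReal.toReal_le_toReal (by simp) hpt).2 hp1
    simpa using this
  have P2 : p.toReal < 2 := by
    have := (ENNReal.toReal_lt_toReal hpt (by simp)).2 hp2
    simpa using this
  obtain ⟨A, hA, hU⟩ := linear_part hp1 hq1 hlam f h1 h2
  have ec : ∀ (u v : ℝ), nrm p (A ![1, 0] 0 * u + A ![0, 1] 0 * v)
      (A ![1, 0] 1 * u + A ![0, 1] 1 * v) ≤ nrm q u v := by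
    intro u v
    have := hA ![u, v]
    have c0 := coords A.toLinearMap u v 0
    have c1 := coords A.toLinearMap u v 1
    simp only [LinearEquiv.coe_coe] at c0 c1
    rw [c0, c1] at this
    simpa using this
  have hn1 : nrm q 1 t ≠ 0 := by have := one_le_nrm hq1 t; linarith
  have hn2 : 0 < nrm q 1 t := by have := one_le_nrm hq1 t; linarith
  have b1 : rho p q t ≤ lam * 2 ^ (1 / p.toReal) := by
    unfold rho
    rw [div_le_iff₀ hn2, nrm_eq hpt]
    have g1 : 1 ≤ lam * nr p.toReal (A ![1, 0] 0) (A ![1, 0] 1) := by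
      have := hU (A ![1, 0])
      rw [LinearEquiv.symm_apply_apply, nrm_eq hpt] at this
      refine le_trans ?_ this
      simpa using one_le_nrm hq1 0
    have g2 : 1 ≤ lam * nr p.toReal (A ![0, 1] 0) (A ![0, 1] 1) := by
      have := hU (A ![0, 1])
      rw [LinearEquiv.symm_apply_apply, nrm_eq hpt] at this
      refine le_trans ?_ this
      have := one_le_nrm hq1 0
      rw [nrm_swap] at this
      simpa using this
    refine dist_one P1 P2.le ht0 ht1 hlam.le (nrm_nonneg _ _ _) g1 g2 ?_ ?_ ?_ ?_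
    · have := ec 1 t
      rw [nrm_eq hpt, mul_one, mul_one] at this
      exact this
    · have := ec 1 (-t)
      rw [nrm_eq hpt, mul_one, mul_one, nrm_abs q (a' := 1) (b' := t) rfl (abs_neg t), mul_neg,
        mul_neg, ← sub_eq_add_neg, ← sub_eq_add_neg] at this
      exact this
    · have := ec t 1
      rw [nrm_eq hpt, mul_one, mul_one, nrm_swap] at this
      exact this
    · have := ec t (-1)
      rw [nrm_eq hpt, mul_neg_one, mul_neg_one, nrm_abs q (a' := t) (b' := 1) rfl (abs_neg 1),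
        nrm_swap, ← sub_eq_add_neg, ← sub_eq_add_neg] at this
      exact this
  by_cases h : q = ⊤
  · subst h
    have e : kap p ⊤ = 1 / p.toReal := by
      simp only [kap, ENNReal.toReal_top, div_zero, sub_zero]
      exact min_eq_left (by rw [div_le_one (by linarith)]; exact P1)
    rw [e]; exact b1
  · have Q2 : 2 < q.toReal := by
      have := (ENNReal.toReal_lt_toReal (by simp) h).2 hq
      simpa using this
    have b2 : rho p q t ≤ lam * 2 ^ (1 - 1 / q.toReal) := by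
      unfold rho
      rw [div_le_iff₀ hn2, nrm_eq h]
      have eu : ∀ (u v : ℝ), nrm p u v ≤ nr q.toReal (A.symm ![1, 0] 0 * u + A.symm ![0, 1] 0 * v)
          (A.symm ![1, 0] 1 * u + A.symm ![0, 1] 1 * v) := by
        intro u v
        have := hA (A.symm ![u, v])
        have c0 := coords A.symm.toLinearMap u v 0
        have c1 := coords A.symm.toLinearMap u v 1
        simp only [LinearEquiv.coe_coe] at c0 c1
        rw [LinearEquiv.apply_symm_apply, c0, c1, nrm_eq h] at this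
        simpa using this
      have g1 : nr q.toReal (A.symm ![1, 0] 0) (A.symm ![1, 0] 1) ≤ lam := by
        have := hU ![1, 0]
        rw [nrm_eq h] at this
        refine this.trans ?_
        have h3 : nrm p 1 0 ≤ 1 := by simpa using nrm_le_sum hp1 1 0
        have h4 : lam * nrm p 1 0 ≤ lam := by nlinarith
        simpa using h4
      have g2 : nr q.toReal (A.symm ![0, 1] 0) (A.symm ![0, 1] 1) ≤ lam := by
        have := hU ![0, 1]
        rw [nrm_eq h] at this
        refine this.trans ?_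
        have h3 : nrm p 0 1 ≤ 1 := by simpa using nrm_le_sum hp1 0 1
        have h4 : lam * nrm p 0 1 ≤ lam := by nlinarith
        simpa using h4
      refine dist_two Q2.le ht0 ht1 hlam.le (nrm_nonneg p (1 + t) (1 - t)) g1 g2 ?_ ?_ ?_ ?_
      · exact eu (1 + t) (1 - t)
      · have := eu (1 + t) (-(1 - t))
        rw [mul_neg, mul_neg, ← sub_eq_add_neg, ← sub_eq_add_neg,
          nrm_abs p (a' := 1 + t) (b' := 1 - t) rfl (abs_neg _)] at this
        exact this
      · have := eu (1 - t) (1 + t)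
        rw [nrm_swap] at this
        exact this
      · have := eu (1 - t) (-(1 + t))
        rw [mul_neg, mul_neg, ← sub_eq_add_neg, ← sub_eq_add_neg,
          nrm_abs p (a' := 1 - t) (b' := 1 + t) rfl (abs_neg _), nrm_swap] at this
        exact this
    rcases min_cases (1 / p.toReal) (1 - 1 / q.toReal) with ⟨e, _⟩ | ⟨e, _⟩
    · rw [kap, e]; exact b1
    · rw [kap, e]; exact b2

/-- the rotation by 45 degrees, scaled -/
noncomputable def rot (c : ℝ) (hc : c ≠ 0) : (Fin 2 → ℝ) ≃ₗ[ℝ] (Fin 2 → ℝ) where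
  toFun x := ![c * (x 0 + x 1), c * (x 0 - x 1)]
  invFun y := ![(y 0 + y 1) / (2 * c), (y 0 - y 1) / (2 * c)]
  map_add' x y := by ext i; fin_cases i <;> simp <;> ring
  map_smul' r x := by ext i; fin_cases i <;> simp <;> ring
  left_inv x := by ext i; fin_cases i <;> simp <;> field_simp <;> ring
  right_inv y := by ext i; fin_cases i <;> simp <;> field_simp <;> ring

theorem main {p q : ℝ≥0∞} (hp1 : 1 ≤ p) (hp2 : p < 2) (hq : 2 < q) :
    dBM (L 2 p) (L 2 q) = Real.log (Mx p q) - kap p q * Real.log 2 := by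
  have hq1 : 1 ≤ q := le_trans (by norm_num) hq.le
  have hM := one_le_Mx hp1 hq1
  have hM0 : 0 < Mx p q := by linarith
  have h2k : (0 : ℝ) < 2 ^ kap p q := by positivity
  have elog : Real.log (Mx p q / 2 ^ kap p q) = Real.log (Mx p q) - kap p q * Real.log 2 := by
    rw [Real.log_div hM0.ne' h2k.ne', Real.log_rpow (by norm_num)]
  refine IsLeast.csInf_eq ⟨?_, ?_⟩
  · refine ⟨Mx p q / 2 ^ kap p q, (rot (Mx p q)⁻¹ (inv_pos.2 hM0).ne').toAffineEquiv,
      by positivity, elog.symm, ?_, ?_⟩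
    · rintro _ ⟨x, hx, rfl⟩
      have h1 := (mem_L hq1 x).1 hx
      have h2 := upp hp1 hq1 (x 0) (x 1)
      rw [mem_L hp1]
      show nrm p ((Mx p q)⁻¹ * (x 0 + x 1)) ((Mx p q)⁻¹ * (x 0 - x 1)) ≤ 1
      rw [nrm_smul hp1, abs_of_pos (inv_pos.2 hM0), inv_mul_le_iff₀ hM0, mul_one]
      nlinarith
    · intro y hy
      have h1 := (mem_L hp1 y).1 hy
      set lam := Mx p q / 2 ^ kap p q with hlam
      have hl0 : 0 < lam := by positivity
      set g := rot (Mx p q)⁻¹ (inv_pos.2 hM0).ne' with hg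
      set x := g.symm (lam⁻¹ • y) with hx
      have hgx : g x = lam⁻¹ • y := LinearEquiv.apply_symm_apply _ _
      refine ⟨g x, ⟨x, ?_, rfl⟩, ?_⟩
      · rw [mem_L hq1]
        have h2 := low hp1 hp2 hq (x 0) (x 1)
        have h3 : nrm p (g x 0) (g x 1) = (Mx p q)⁻¹ * nrm p (x 0 + x 1) (x 0 - x 1) := by
          show nrm p ((Mx p q)⁻¹ * (x 0 + x 1)) ((Mx p q)⁻¹ * (x 0 - x 1)) = _
          rw [nrm_smul hp1, abs_of_pos (inv_pos.2 hM0)]
        rw [hgx, Pi.smul_apply, Pi.smul_apply, smul_eq_mul, smul_eq_mul, nrm_smul hp1,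
          abs_of_pos (inv_pos.2 hl0)] at h3
        have h4 : nrm p (x 0 + x 1) (x 0 - x 1) = 2 ^ kap p q * nrm p (y 0) (y 1) := by
          have e1 : nrm p (x 0 + x 1) (x 0 - x 1) = Mx p q * (lam⁻¹ * nrm p (y 0) (y 1)) := by
            rw [h3]; field_simp
          rw [e1, hlam]; field_simp
        rw [h4] at h2
        exact (le_of_mul_le_mul_left h2 h2k).trans h1
      · show lam • g x = y
        rw [hgx, smul_smul, mul_inv_cancel₀ hl0.ne', one_smul]
  · rintro r ⟨lam, f, hlam, rfl, h1, h2⟩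
    have h3 : Mx p q ≤ lam * 2 ^ kap p q := by
      have : Nonempty (Icc (0 : ℝ) 1) := ⟨⟨0, by norm_num⟩⟩
      exact ciSup_le fun t => lower hp1 hp2 hq hlam f h1 h2 t.2.1 t.2.2
    rw [← elog]
    refine Real.log_le_log (by positivity) ?_
    rw [div_le_iff₀ h2k]
    exact h3

end Pool.Agent.helper76.BM
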