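import Pool.Agent.helper76.BM.Hanner
import Pool.Agent.helper76.BM.HY

/-!
Norms on the plane and the two sided estimates for the rotation by 45 degrees.
-/

open Real Set

namespace Pool.Agent.helper76.BM

/-- the norm of `ℓ_p` on the plane, `p` real -/
noncomputable def nr (p a b : ℝ) : ℝ := (|a| ^ p + |b| ^ p) ^ (1 / p)

theorem nr_base_nonneg (p a b : ℝ) : 0 ≤ |a| ^ p + |b| ^ p :=
  add_nonneg (Real.rpow_nonneg (abs_nonneg _) _) (Real.rpow_nonneg (abs_nonneg _) _)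

theorem nr_nonneg (p a b : ℝ) : 0 ≤ nr p a b := Real.rpow_nonneg (nr_base_nonneg p a b) _

theorem nr_pow {p : ℝ} (hp : 0 < p) (a b : ℝ) : nr p a b ^ p = |a| ^ p + |b| ^ p := by
  unfold nr
  rw [← Real.rpow_mul (nr_base_nonneg p a b), one_div_mul_cancel hp.ne', Real.rpow_one]

theorem nr_smul {p : ℝ} (hp : 0 < p) (c a b : ℝ) : nr p (c * a) (c * b) = |c| * nr p a b := by
  unfold nr
  rw [abs_mul, abs_mul, Real.mul_rpow (abs_nonneg _) (abs_nonneg _),
    Real.mul_rpow (abs_nonneg _) (abs_nonneg _), ← mul_add,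
    Real.mul_rpow (Real.rpow_nonneg (abs_nonneg _) _) (nr_base_nonneg p a b),
    ← Real.rpow_mul (abs_nonneg _), mul_one_div_cancel hp.ne', Real.rpow_one]

theorem abs_le_nr {p : ℝ} (hp : 0 < p) (a b : ℝ) : |a| ≤ nr p a b ∧ |b| ≤ nr p a b := by
  constructor
  · rw [← Real.rpow_le_rpow_iff (abs_nonneg a) (nr_nonneg p a b) hp, nr_pow hp]
    linarith [Real.rpow_nonneg (abs_nonneg b) p]
  · rw [← Real.rpow_le_rpow_iff (abs_nonneg b) (nr_nonneg p a b) hp, nr_pow hp]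
    linarith [Real.rpow_nonneg (abs_nonneg a) p]

theorem nr_eq_zero {p : ℝ} (hp : 0 < p) {a b : ℝ} (h : nr p a b = 0) : a = 0 ∧ b = 0 := by
  obtain ⟨h1, h2⟩ := abs_le_nr hp a b
  rw [h] at h1 h2
  exact ⟨abs_eq_zero.1 (le_antisymm h1 (abs_nonneg _)), abs_eq_zero.1 (le_antisymm h2 (abs_nonneg _))⟩

theorem nr_anti {p q : ℝ} (hp : 0 < p) (hpq : p ≤ q) (a b : ℝ) : nr q a b ≤ nr p a b := by
  have := NNReal.rpow_add_rpow_le (Real.nnabs a) (Real.nnabs b) hp hpq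
  have h2 : ((((Real.nnabs a) ^ q + (Real.nnabs b) ^ q) ^ (1 / q) : NNReal) : ℝ) ≤
      (((Real.nnabs a) ^ p + (Real.nnabs b) ^ p) ^ (1 / p) : NNReal) := NNReal.coe_le_coe.2 this
  push_cast at h2
  simpa [nr] using h2

theorem sign_mul (x : ℝ) : ∃ s : ℝ, |s| = 1 ∧ s * |x| = x := by
  rcases le_total 0 x with h | h
  · exact ⟨1, by simp, by rw [abs_of_nonneg h, one_mul]⟩
  · exact ⟨-1, by simp, by rw [abs_of_nonpos h]; ring⟩

/-- The two point Hausdorff-Young inequality. -/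
theorem hy {p : ℝ} (hp1 : 1 < p) (hp2 : p ≤ 2) (x y : ℝ) :
    nr (p / (p - 1)) (x + y) (x - y) ≤ 2 ^ (1 - 1 / p) * nr p x y := by
  have hp0 : 0 < p := by linarith
  set r := p / (p - 1) with hr
  have hr0 : 0 < r := div_pos hp0 (by linarith)
  have hrp : r / p = r - 1 := by
    have : p - 1 ≠ 0 := by linarith
    rw [hr]; field_simp; ring
  set N := nr p x y with hN
  set M := nr r (x + y) (x - y) with hM
  have hN0 : 0 ≤ N := nr_nonneg _ _ _
  have hM0 : 0 ≤ M := nr_nonneg _ _ _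
  have c0 : (0 : ℝ) ≤ 2 ^ (1 - 1 / p) := by positivity
  rcases eq_or_lt_of_le hN0 with h | h
  · obtain ⟨h1, h2⟩ := nr_eq_zero hp0 h.symm
    have : M = 0 := by
      rw [hM, h1, h2]; simp [nr, Real.zero_rpow hr0.ne', Real.zero_rpow (inv_pos.2 hr0).ne']
    rw [this]; positivity
  rcases eq_or_lt_of_le hM0 with h' | h'
  · rw [← h']; positivity
  obtain ⟨s₁, hs₁, hx⟩ := sign_mul x
  obtain ⟨s₂, hs₂, hy⟩ := sign_mul y
  obtain ⟨r₁, hr₁, hxy⟩ := sign_mul (x + y)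
  obtain ⟨r₂, hr₂, hxy'⟩ := sign_mul (x - y)
  have hNp : N ^ p = |x| ^ p + |y| ^ p := nr_pow hp0 x y
  have hMr : M ^ r = |x + y| ^ r + |x - y| ^ r := nr_pow hr0 _ _
  have hNpos : 0 < N ^ p := Real.rpow_pos_of_pos h p
  have hMpos : 0 < M ^ r := Real.rpow_pos_of_pos h' r
  have hx1 : 1 / 2 ≤ 1 / p := one_div_le_one_div_of_le hp0 hp2
  have hx2 : 1 / p ≤ 1 := by rw [div_le_one hp0]; exact hp1.le
  have key := bil_le hx1 hx2 (a₁ := |x| ^ p / N ^ p) (a₂ := |y| ^ p / N ^ p)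
    (b₁ := |x + y| ^ r / M ^ r) (b₂ := |x - y| ^ r / M ^ r) (by positivity) (by positivity)
    (by positivity) (by positivity) (by rw [← add_div, ← hNp, div_self hNpos.ne'])
    (by rw [← add_div, ← hMr, div_self hMpos.ne']) s₁ s₂ r₁ r₂ hs₁ hs₂ hr₁ hr₂
  have ea : ∀ u : ℝ, (|u| ^ p / N ^ p) ^ (1 / p) = |u| / N := fun u => by
    rw [Real.div_rpow (by positivity) hNpos.le, ← Real.rpow_mul (abs_nonneg _),
      ← Real.rpow_mul h.le, mul_one_div_cancel hp0.ne', Real.rpow_one, Real.rpow_one]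
  have eb : ∀ u : ℝ, (|u| ^ r / M ^ r) ^ (1 / p) = |u| ^ (r - 1) / M ^ (r - 1) := fun u => by
    rw [Real.div_rpow (by positivity) hMpos.le, ← Real.rpow_mul (abs_nonneg _),
      ← Real.rpow_mul h'.le, mul_one_div, hrp]
  rw [ea, ea, eb, eb] at key
  have hMr1 : 0 < M ^ (r - 1) := Real.rpow_pos_of_pos h' _
  have ec : ∀ u : ℝ, |u| ^ (r - 1) * |u| = |u| ^ r := fun u => by
    rcases eq_or_lt_of_le (abs_nonneg u) with h0 | h0
    · rw [← h0, mul_zero, Real.zero_rpow hr0.ne']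
    · rw [← Real.rpow_add_one h0.ne']; congr 1; ring
  have e1 : s₁ * (|x| / N) + s₂ * (|y| / N) = (x + y) / N := by
    rw [mul_div_assoc', mul_div_assoc', hx, hy, add_div]
  have e2 : s₁ * (|x| / N) - s₂ * (|y| / N) = (x - y) / N := by
    rw [mul_div_assoc', mul_div_assoc', hx, hy, sub_div]
  rw [e1, e2] at key
  have hq : ∀ (s u : ℝ), |s| = 1 → s * |u| = u → s * u = |u| := fun s u hs hu => by
    have h3 : s * s = 1 := by
      have := abs_mul_abs_self s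
      rw [hs] at this; linarith
    calc s * u = s * (s * |u|) := by rw [hu]
      _ = s * s * |u| := by ring
      _ = |u| := by rw [h3, one_mul]
  have e3 : r₁ * (|x + y| ^ (r - 1) / M ^ (r - 1)) * ((x + y) / N)
      + r₂ * (|x - y| ^ (r - 1) / M ^ (r - 1)) * ((x - y) / N) = M / N := by
    have e4 : r₁ * (|x + y| ^ (r - 1) / M ^ (r - 1)) * ((x + y) / N)
        + r₂ * (|x - y| ^ (r - 1) / M ^ (r - 1)) * ((x - y) / N)
        = (|x + y| ^ (r - 1) * (r₁ * (x + y)) + |x - y| ^ (r - 1) * (r₂ * (x - y)))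
          / (M ^ (r - 1) * N) := by
      field_simp
    rw [e4, hq r₁ _ hr₁ hxy, hq r₂ _ hr₂ hxy', ec, ec, ← hMr]
    have : M ^ r = M ^ (r - 1) * M := by
      rw [← Real.rpow_add_one h'.ne']; congr 1; ring
    rw [this]
    field_simp
  rw [e3, abs_of_nonneg (by positivity), div_le_iff₀ h] at key
  exact key

/-- region one, `q` real -/
theorem low_one {p q : ℝ} (hp1 : 1 < p) (hp2 : p ≤ 2) (hq : p / (p - 1) ≤ q) (x y : ℝ) :
    2 ^ (1 / p) * nr q x y ≤ nr p (x + y) (x - y) := by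
  have hr0 : 0 < p / (p - 1) := div_pos (by linarith) (by linarith)
  have h1 := hy hp1 hp2 (x + y) (x - y)
  rw [show x + y + (x - y) = 2 * x by ring, show x + y - (x - y) = 2 * y by ring, nr_smul hr0,
    abs_two] at h1
  have h2 := nr_anti hr0 hq x y
  have h3 : (2 : ℝ) ^ (1 - 1 / p) * 2 ^ (1 / p) = 2 := by
    rw [← Real.rpow_add (by norm_num)]; norm_num
  have h4 : (0 : ℝ) < 2 ^ (1 - 1 / p) := by positivity
  have h5 : (0 : ℝ) < 2 ^ (1 / p) := by positivity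
  have h6 : 2 * nr q x y ≤ 2 ^ (1 - 1 / p) * nr p (x + y) (x - y) := by linarith
  have h7 : 2 ^ (1 - 1 / p) * (2 ^ (1 / p) * nr q x y) ≤
      2 ^ (1 - 1 / p) * nr p (x + y) (x - y) := by
    rw [← mul_assoc, h3]; exact h6
  exact le_of_mul_le_mul_left h7 h4

/-- region one, `q = ∞` -/
theorem low_top {p : ℝ} (hp1 : 1 ≤ p) (hp2 : p ≤ 2) (x y : ℝ) :
    2 ^ (1 / p) * max |x| |y| ≤ nr p (x + y) (x - y) := by
  rcases eq_or_lt_of_le hp1 with h | h
  · subst h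
    simp only [nr, div_one, Real.rpow_one]
    rcases max_cases |x| |y| with ⟨h1, _⟩ | ⟨h1, _⟩ <;> rw [h1]
    · have := abs_add_le (x + y) (x - y)
      rw [show x + y + (x - y) = 2 * x by ring, abs_mul, abs_two] at this
      exact this
    · have := abs_sub (x + y) (x - y)
      rw [show x + y - (x - y) = 2 * y by ring, abs_mul, abs_two] at this
      exact this
  · have h1 := low_one h hp2 le_rfl x y
    have h2 := abs_le_nr (show 0 < p / (p - 1) from div_pos (by linarith) (by linarith)) x y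
    have h3 : max |x| |y| ≤ nr (p / (p - 1)) x y := max_le h2.1 h2.2
    exact (mul_le_mul_of_nonneg_left h3 (by positivity)).trans h1

/-- region two -/
theorem low_two {p q : ℝ} (hp1 : 1 ≤ p) (hq : 2 ≤ q) (h : p ≤ q / (q - 1)) (x y : ℝ) :
    2 ^ (1 - 1 / q) * nr q x y ≤ nr p (x + y) (x - y) := by
  set s := q / (q - 1) with hs
  have hq1 : 0 < q - 1 := by linarith
  have hs1 : 1 < s := by rw [hs, one_lt_div hq1]; linarith
  have hs2 : s ≤ 2 := by rw [hs, div_le_iff₀ hq1]; linarith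
  have e1 : s / (s - 1) = q := by
    have : s - 1 = 1 / (q - 1) := by rw [hs]; field_simp; ring
    rw [this, hs]; field_simp
  have e2 : 1 / s = 1 - 1 / q := by
    rw [hs, one_div_div]; field_simp
  have h1 := low_one hs1 hs2 (q := q) e1.le x y
  rw [e2] at h1
  exact h1.trans (nr_anti (by linarith) h _ _)

/-- lower bound for the distortion, first form -/
theorem dist_one {p : ℝ} (hp1 : 1 ≤ p) (hp2 : p ≤ 2) {a b c d lam K t : ℝ} (ht0 : 0 ≤ t)
    (ht1 : t ≤ 1) (hlam : 0 ≤ lam) (hK : 0 ≤ K)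
    (h1 : 1 ≤ lam * nr p a c) (h2 : 1 ≤ lam * nr p b d)
    (k1 : nr p (a + b * t) (c + d * t) ≤ K) (k2 : nr p (a - b * t) (c - d * t) ≤ K)
    (k3 : nr p (a * t + b) (c * t + d) ≤ K) (k4 : nr p (a * t - b) (c * t - d) ≤ K) :
    nr p (1 + t) (1 - t) ≤ lam * 2 ^ (1 / p) * K := by
  have hp0 : 0 < p := by linarith
  have f1 := four_le hp1 hp2 ht0 ht1 a b
  have f2 := four_le hp1 hp2 ht0 ht1 c d
  simp only [mul_one] at f1 f2
  have pw : ∀ {u v : ℝ}, nr p u v ≤ K → |u| ^ p + |v| ^ p ≤ K ^ p := fun {u v} h => by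
    rw [← nr_pow hp0]; exact Real.rpow_le_rpow (nr_nonneg _ _ _) h hp0.le
  have g1 := pw k1
  have g2 := pw k2
  have g3 := pw k3
  have g4 := pw k4
  have pl : ∀ {u v : ℝ}, 1 ≤ lam * nr p u v → 1 ≤ lam ^ p * (|u| ^ p + |v| ^ p) := fun {u v} h => by
    rw [← nr_pow hp0, ← Real.mul_rpow hlam (nr_nonneg _ _ _)]
    exact Real.one_le_rpow h hp0.le
  have l1 := pl h1
  have l2 := pl h2
  have e0 : |1 + t| = 1 + t := abs_of_nonneg (by linarith)
  have e0' : |1 - t| = 1 - t := abs_of_nonneg (by linarith)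
  set W := (1 + t) ^ p + (1 - t) ^ p with hW
  have hW0 : 0 ≤ W := add_nonneg (Real.rpow_nonneg (by linarith) _) (Real.rpow_nonneg (by linarith) _)
  have hsum : (|a| ^ p + |c| ^ p + (|b| ^ p + |d| ^ p)) * W ≤ 4 * K ^ p := by
    nlinarith
  have hl0 : 0 ≤ lam ^ p := Real.rpow_nonneg hlam p
  have h3 : 2 * W ≤ lam ^ p * (|a| ^ p + |c| ^ p + (|b| ^ p + |d| ^ p)) * W := by
    have : (2 : ℝ) ≤ lam ^ p * (|a| ^ p + |c| ^ p + (|b| ^ p + |d| ^ p)) := by nlinarith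
    exact mul_le_mul_of_nonneg_right this hW0
  have h4 : W ≤ lam ^ p * 2 * K ^ p := by
    nlinarith [mul_le_mul_of_nonneg_left hsum hl0]
  rw [← Real.rpow_le_rpow_iff (nr_nonneg _ _ _) (by positivity) hp0, nr_pow hp0, e0, e0',
    Real.mul_rpow (by positivity) hK, Real.mul_rpow hlam (by positivity),
    ← Real.rpow_mul (by norm_num), one_div_mul_cancel hp0.ne', Real.rpow_one]
  exact h4

/-- lower bound for the distortion, second form -/
theorem dist_two {q : ℝ} (hq : 2 ≤ q) {a b c d lam K t : ℝ} (ht0 : 0 ≤ t)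
    (ht1 : t ≤ 1) (hlam : 0 ≤ lam) (hK : 0 ≤ K)
    (h1 : nr q a c ≤ lam) (h2 : nr q b d ≤ lam)
    (k1 : K ≤ nr q (a * (1 + t) + b * (1 - t)) (c * (1 + t) + d * (1 - t)))
    (k2 : K ≤ nr q (a * (1 + t) - b * (1 - t)) (c * (1 + t) - d * (1 - t)))
    (k3 : K ≤ nr q (a * (1 - t) + b * (1 + t)) (c * (1 - t) + d * (1 + t)))
    (k4 : K ≤ nr q (a * (1 - t) - b * (1 + t)) (c * (1 - t) - d * (1 + t))) :
    K ≤ lam * 2 ^ (1 - 1 / q) * nr q 1 t := by
  have hq0 : 0 < q := by linarith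
  have f1 := four_ge hq (u := 1 + t) (v := 1 - t) (by linarith) (by linarith) a b
  have f2 := four_ge hq (u := 1 + t) (v := 1 - t) (by linarith) (by linarith) c d
  rw [show 1 + t + (1 - t) = 2 by ring, show 1 + t - (1 - t) = 2 * t by ring,
    Real.mul_rpow (by norm_num) ht0] at f1 f2
  have pw : ∀ {u v : ℝ}, K ≤ nr q u v → K ^ q ≤ |u| ^ q + |v| ^ q := fun {u v} h => by
    rw [← nr_pow hq0]; exact Real.rpow_le_rpow hK h hq0.le
  have g1 := pw k1
  have g2 := pw k2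
  have g3 := pw k3
  have g4 := pw k4
  have pl : ∀ {u v : ℝ}, nr q u v ≤ lam → |u| ^ q + |v| ^ q ≤ lam ^ q := fun {u v} h => by
    rw [← nr_pow hq0]; exact Real.rpow_le_rpow (nr_nonneg _ _ _) h hq0.le
  have l1 := pl h1
  have l2 := pl h2
  set D := (2 : ℝ) ^ q with hD
  have hD0 : 0 < D := by positivity
  have ht : 0 ≤ t ^ q := Real.rpow_nonneg ht0 q
  set W := D + D * t ^ q with hW
  have hW0 : 0 ≤ W := by positivity
  have h3 : 4 * K ^ q ≤ (|a| ^ q + |c| ^ q + (|b| ^ q + |d| ^ q)) * W := by nlinarith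
  have h4 : (|a| ^ q + |c| ^ q + (|b| ^ q + |d| ^ q)) * W ≤ (2 * lam ^ q) * W :=
    mul_le_mul_of_nonneg_right (by linarith) hW0
  have h5 : K ^ q ≤ lam ^ q * (D / 2) * (1 + t ^ q) := by nlinarith
  have e1 : (2 : ℝ) ^ ((1 - 1 / q) * q) = D / 2 := by
    rw [sub_mul, one_mul, one_div_mul_cancel hq0.ne', Real.rpow_sub (by norm_num), Real.rpow_one]
  rw [← Real.rpow_le_rpow_iff hK (mul_nonneg (by positivity) (nr_nonneg _ _ _)) hq0,
    Real.mul_rpow (by positivity) (nr_nonneg _ _ _), nr_pow hq0, Real.mul_rpow hlam (by positivity),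
    ← Real.rpow_mul (by norm_num), e1, abs_one, Real.one_rpow, abs_of_nonneg ht0]
  exact h5

end Pool.Agent.helper76.BM
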